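import Mathlib

set_option autoImplicit false

namespace Pool.Agent.Results.MP_7d7944_co.Semifield

open Finset

/-- Number of preimages of `β`. -/
def pre {n m : ℕ} (F : (Fin n → ZMod 2) → Fin m → ZMod 2) (β : Fin m → ZMod 2) : ℕ :=
  (univ.filter fun x => F x = β).card

/-- Every derivative in a nonzero direction takes each value exactly `2 ^ (n - m)` times. -/
def Bent {n m : ℕ} (F : (Fin n → ZMod 2) → Fin m → ZMod 2) : Prop :=
  ∀ a ≠ 0, ∀ β, pre (fun x => F (x + a) + F x) β = 2 ^ (n - m)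

/-- Almost balanced of type `(-)`. -/
def TypeMinus {n m : ℕ} (F : (Fin n → ZMod 2) → Fin m → ZMod 2) : Prop :=
  ∃ α, (pre F α : ℤ) = 2 ^ (n - m) - 2 ^ (n / 2) + 2 ^ (n / 2 - m) ∧
    ∀ β ≠ α, (pre F β : ℤ) = 2 ^ (n - m) + 2 ^ (n / 2 - m)

abbrev V := Fin 4 → ZMod 2

def enc (k : ℕ) : V := fun i => if k.testBit i then 1 else 0

def mul (x y : V) : V := fun i => ∑ j : Fin 4, ∑ k : Fin 4,
  (if (![0x8421, 0x5ed2, 0xb5c4, 0x47a8] k : ℕ).testBit (4 * j + i) then 1 else 0) * x j * y k

def T (x y : ℕ) : ℕ := 0xc35a4bd2e17869f03d86f14a972c5be085c1e3a7f2b694d07b1d593f84e2a6c0a1f47c29386de5b05f28c6b14e39d7a0e76fd45c2ba3189019b36ec45df72a80dae92516bc8f437024359f8ecadb71609c728d63af41be5062ae37fbd9158c40b84712ed659acf30469ba87513cefd20fedcba98765432100000000000000000 >>> (64 * y + 4 * x) % 16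

def ap (b c d x : ℕ) : ℕ := (if x.testBit 1 then b else 0) ^^^ (if x.testBit 2 then c else 0) ^^^
  if x.testBit 3 then d else 0

def good (b c d y : ℕ) : Bool := (List.range 16).all fun x => x == 0 || T x y != ap b c d x

theorem key : ∀ b < 16, ∀ c < 16, ∀ d < 16, ∃ y < 16, good b c d y ∧ ∃ z < y, good b c d z := by
  decide +kernel

theorem add1 (x x' y : V) : mul (x + x') y = mul x y + mul x' y := by
  ext i; simp only [mul, Pi.add_apply, mul_add, add_mul, sum_add_distrib]

theorem add2 (x y y' : V) : mul x (y + y') = mul x y + mul x y' := by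
  ext i; simp only [mul, Pi.add_apply, mul_add, sum_add_distrib]

theorem smul1 (c : ZMod 2) (x y : V) : mul (c • x) y = c • mul x y := by
  ext i; simp only [mul, Pi.smul_apply, smul_eq_mul, mul_sum]; congr! 2; ring

theorem sur : ∀ a : V, a ≠ 0 → ∀ β, (∃ x, mul x a = β) ∧ ∃ y, mul a y = β := by decide +kernel

theorem zero : ∀ a : V, mul a 0 = 0 ∧ mul 0 a = 0 := by decide +kernel

theorem encT : ∀ x < 16, ∀ y < 16, mul (enc x) (enc y) = enc (T x y) ∧ T x y < 16 ∧
    (enc x = enc y → x = y) := by decide +kernel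

theorem encS : ∀ v : V, ∃ k < 16, enc k = v := by decide +kernel

theorem encX (p q : ℕ) : enc (p ^^^ q) = enc p + enc q := by
  ext i
  simp only [enc, Nat.testBit_xor, Pi.add_apply]
  cases p.testBit i <;> cases q.testBit i <;> decide

theorem encB : ∀ x < 16, enc x = enc x 0 • enc 1 + enc x 1 • enc 2 + enc x 2 • enc 4 + enc x 3 • enc 8 := by
  decide +kernel

theorem self (v : V) : v + v = 0 := by ext i; exact CharTwo.add_self_eq_zero _

theorem two (U : V →ₗ[ZMod 2] V) : ∃ y z, y ≠ z ∧ ∀ β, (∃ x, mul x y + U x = β) ∧ ∃ x, mul x z + U x = β := by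
  obtain ⟨e, he⟩ := (sur (enc 1) (by decide) (U (enc 1))).2
  let M : V → V →ₗ[ZMod 2] V := fun y => ⟨⟨fun x => mul x y, fun _ _ => add1 _ _ _⟩, fun _ _ => smul1 _ _ _⟩
  let W := M e + U
  obtain ⟨b, hb, eb⟩ := encS (W (enc 2))
  obtain ⟨c, hc, ec⟩ := encS (W (enc 4))
  obtain ⟨d, hd, ed⟩ := encS (W (enc 8))
  have w : ∀ x < 16, W (enc x) = enc (ap b c d x) := fun x hx => by
    have i : ∀ (t : Bool) k, enc (if t then k else 0) = (if t then 1 else 0 : ZMod 2) • enc k := by
      rintro (_ | _) k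
      · ext i; simp [enc]
      · simp
    have e1 : W (enc 1) = 0 := by
      show mul (enc 1) e + U (enc 1) = 0
      rw [he, self]
    rw [encB x hx, ap, encX, encX, i, i, i]
    simp only [map_add, map_smul, e1, ← eb, ← ec, ← ed, smul_zero, zero_add]
    rfl
  have g : ∀ y < 16, good b c d y → ∀ β, ∃ x, mul x (enc y + e) + U x = β := fun y hy g β => by
    refine (LinearMap.injective_iff_surjective (f := M (enc y + e) + U)).mp
      ((injective_iff_map_eq_zero _).mpr fun x hx => ?_) β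
    obtain ⟨x, h, rfl⟩ := encS x
    have s := List.all_eq_true.mp g x (List.mem_range.mpr h)
    simp only [Bool.or_eq_true, beq_iff_eq, bne_iff_ne] at s
    rcases s with rfl | s
    · decide
    refine (s ((encT _ (encT x h y hy).2.1 _ ?_).2.2 ?_)).elim
    · refine Nat.xor_lt_two_pow (n := 4) (Nat.xor_lt_two_pow ?_ ?_) ?_ <;> split_ifs <;> omega
    · rw [← w x h, ← (encT x h y hy).1]
      have : mul (enc x) (enc y) + W (enc x) = 0 := by
        rw [← hx]
        show _ + (mul _ _ + _) = mul _ _ + _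
        rw [add2, add_assoc]
      rw [eq_neg_of_add_eq_zero_left this, neg_eq_of_add_eq_zero_left (self _)]
  obtain ⟨y, hy, g1, z, hz, g2⟩ := key b hb c hc d hd
  refine ⟨enc y + e, enc z + e, fun h => ?_, fun β => ⟨g y hy g1 β, g z (by omega) g2 β⟩⟩
  have := (encT y hy z (by omega)).2.2 (add_right_cancel h)
  omega

def p (v : Fin 8 → ZMod 2) : V := fun i => v (Fin.castAdd 4 i)
def q (v : Fin 8 → ZMod 2) : V := fun i => v (Fin.natAdd 4 i)
def J (x y : V) : Fin 8 → ZMod 2 := Fin.append x y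

theorem pJ (x y : V) : p (J x y) = x := funext (Fin.append_left x y)
theorem qJ (x y : V) : q (J x y) = y := funext (Fin.append_right x y)

theorem ext' {v w : Fin 8 → ZMod 2} (a : p v = p w) (b : q v = q w) : v = w :=
  funext fun i => Fin.addCases (m := 4) (n := 4) (congrFun a) (congrFun b) i

theorem result : ∃ (n m : ℕ) (F : (Fin n → ZMod 2) → Fin m → ZMod 2),
    Even n ∧ 1 ≤ m ∧ m ≤ n / 2 ∧ Bent F ∧
    ¬ ∃ L : (Fin n → ZMod 2) →ₗ[ZMod 2] Fin m → ZMod 2, TypeMinus fun x => F x + L x := by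
  have pa : ∀ v w, p (v + w) = p v + p w := fun _ _ => rfl
  have qa : ∀ v w, q (v + w) = q v + q w := fun _ _ => rfl
  refine ⟨8, 4, fun v => mul (p v) (q v), by decide, by decide, by decide, fun a ha β => ?_,
    fun ⟨L, α, h, _⟩ => ?_⟩
  · let D : (Fin 8 → ZMod 2) →+ V := AddMonoidHom.mk' (fun v => mul (p v) (q a) + mul (p a) (q v))
      fun v w => by rw [pa, qa, add1, add2]; abel
    have s : ∀ γ, γ ∈ Set.range D := fun γ => by
      by_cases h : p a = 0
      · obtain ⟨x, hx⟩ := (sur (q a) (fun k => ha (ext' h k)) γ).1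
        exact ⟨J x 0, by simp [D, pJ, qJ, zero, hx]⟩
      · obtain ⟨y, hy⟩ := (sur (p a) h γ).2
        exact ⟨J 0 y, by simp [D, pJ, qJ, zero, hy]⟩
    have c := card_eq_sum_card_fiberwise (f := D) (s := univ) (t := univ) (by simp)
    rw [sum_congr rfl fun γ _ => AddMonoidHom.card_fiber_eq_of_mem_range D (s γ)
      (s (β - mul (p a) (q a)))] at c
    simp only [card_univ, Fintype.card_pi, ZMod.card, prod_const, Fintype.card_fin, sum_const,
      smul_eq_mul] at c
    have e : pre (fun x => mul (p (x + a)) (q (x + a)) + mul (p x) (q x)) β =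
        (univ.filter fun x => D x = β - mul (p a) (q a)).card := by
      refine congrArg card (filter_congr fun x _ => ?_)
      beta_reduce
      rw [eq_sub_iff_add_eq, pa, qa, add1, add2, add2, ← add_zero (D x + _), ← self (mul (p x) (q x))]
      refine Eq.congr_left ?_
      simp only [D, AddMonoidHom.mk'_apply]
      abel
    exact e.trans (by omega)
  · let j : V →ₗ[ZMod 2] Fin 8 → ZMod 2 := ⟨⟨fun x => J x 0, fun x y => ext'
      (by rw [pa, pJ, pJ, pJ]) (by rw [qa, qJ, qJ, qJ, add_zero])⟩, fun c x => ext'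
      (by show _ = c • p _; rw [pJ, pJ]) (by show _ = c • q _; rw [qJ, qJ, smul_zero])⟩
    obtain ⟨y, z, hyz, k⟩ := two (L ∘ₗ j)
    have t : ∀ x y, mul x y + L (J x 0) = α - L (J 0 y) →
        J x y ∈ univ.filter fun v => mul (p v) (q v) + L v = α := fun x y e => by
      have : J x y = J x 0 + J 0 y :=
        ext' (by rw [pa, pJ, pJ, pJ, add_zero]) (by rw [qa, qJ, qJ, qJ, zero_add])
      rw [mem_filter, pJ, qJ, this, map_add, ← add_assoc, e]
      simp
    obtain ⟨x, hx⟩ := (k (α - L (J 0 y))).1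
    obtain ⟨x', hx'⟩ := (k (α - L (J 0 z))).2
    have := one_lt_card.mpr ⟨_, t x y hx, _, t x' z hx', fun e => hyz (by rw [← qJ x y, e, qJ])⟩
    norm_num [pre] at h
    omega

end Pool.Agent.Results.MP_7d7944_co.Semifield
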